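import Pool.Agent.Run7.h735.CF.Tate

/-!
# The Tate conjecture for divisors, for cyclic coverings of the plane over finite fields, level by level

Let `q` be a power of a prime, `n = p ^ s` a power of another prime `p` with `q ≡ 1` modulo `n`, and let `S` be a
resolution of a compactification of the cyclic covering `w ^ n = F(x, y)` of the affine plane over `κ = 𝔽_q`.  Let `W` be a
Weil cohomology (`ℓ`-adic cohomology with coefficients in an algebraic closure of `ℚ_ℓ`), `Γ` the group generated by the
Frobenius element `φ`, and `χ` its action on the Tate twists, `χ φ = q`.  The cohomology of `S` is the orthogonal sum of a
space spanned by classes of cycles and of a part `P` of `H^2`, the sum of the parts for the nontrivial characters of the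
covering group.  For instance let the branch curve `F = 0` be smooth, and let the leading form of `F` be `y ^ a + x ^ b`
(so the other monomials are below the segment between `y ^ a` and `x ^ b`), where `n`, `a`, `b` are pairwise coprime:
then `P` is the cohomology with compact supports of the affine surface, its parts have the dimension `(a - 1) (b - 1)`, and
the curves at infinity span the orthogonal complement of `P` in `H^2`.

Let `P₁(T) / (P₂(T) (1 - q T))` be the zeta function of the affine branch curve `F = 0`, and suppose that
`H = P₁ / P₂` modulo `p` is a polynomial.  In the instance above `P₂ = 1`, and `H(1)` is the class number of the branch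
curve (the number of the rational points of its Jacobian) modulo `p`.

**Theorem.**  Let `m ≥ 1`, and suppose that for every divisor `M` of `m` which is prime to `p` the power
`Φ_M ^ (c_M + 1)` of the cyclotomic polynomial does not divide `H` in `𝔽_p[T]`.

1. The multiplicity of `q ^ m` as an eigenvalue of `φ ^ m` on `P` is at most `(n - 1) ∑ φ(M) c_M`, the sum over the divisors
   `M` of `m` which are prime to `p`.
2. If the combinations of classes of divisors over `𝔽_(q ^ m)` in `P` form a space of this dimension, then the
   statement of the problem holds for `S` over `𝔽_(q ^ m)`: the invariant classes are the combinations of the classes of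
   the divisors over `𝔽_(q ^ m)`, and the dimension of the space of these is the multiplicity of the eigenvalue `q ^ m`
   on `H^2`.
3. If no `Φ_M` with `M` dividing `m` and prime to `p` divides `H`, then the statement of the problem holds for `S` over
   `𝔽_(q ^ m)`, and `q ^ m` is not an eigenvalue of `φ ^ m` on `P` (the case where all `c_M` are zero).
4. If `H(1) ≠ 0` -- in the instance above, if `p` does not divide the class number of the branch curve -- then the
   statement of the problem holds for `S` over `𝔽_(q ^ (p ^ a))` for all `a`: over all layers of the `ℤ_p`-extension of
   `𝔽_q`.

So the hypotheses are on the branch *curve* only, modulo `p`, and for each finite field separately: `H` can have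
cyclotomic factors of other orders, when the Tate conjecture for the same surface over the other fields may be open.
The surfaces can have any geometric genus.

Proof.  The trace of the `i`-th power of Frobenius on the part for the character `θ ^ j` is the sum of the values of
`θ ^ j` on the norms of `F(x, y)`, for the points `(x, y)` over the extension of degree `i` of `κ`.  Since `θ` has the
order `n = p ^ s`, its values are congruent to `1` modulo a prime above `p`, and so the sum is congruent to the number of
the points of the plane outside of the curve.  Hence the characteristic polynomial of Frobenius on the part is
congruent to `H`, and the eigenvalues `q ζ` with `ζ` a root of unity, with their multiplicities, give powers of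
cyclotomic polynomials dividing `H`; a primitive root of unity of order `M p ^ b` reduces to one of order `M`, so that
all `b` are counted together (this part is in the starting file `Pool/Agent/Y134/Cyc/Tate`).  The generalized eigenspace
of `φ ^ m` for `q ^ m` in a part is the sum of the generalized eigenspaces of `φ` for the `q ζ` with `ζ ^ m = 1`; its
dimension is the number of these roots of the characteristic polynomial, which is at most `∑ φ(M) c_M`: a root of unity
of order dividing `m` is the product of one of order `M` prime to `p`, a divisor of `m`, and of one of `p`-power order.
For the Picard number, let `x` in `H^2` be a generalized eigenvector of `φ ^ m` for `q ^ m`, and `x = a + y` its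
decomposition; since `P` and its orthogonal complement are stable under `φ`, both `a` and `y` are generalized
eigenvectors.  By 1 the vector `y` is a combination of classes of divisors over `𝔽_(q ^ m)`.  The vector `a` is a
combination of classes of divisors over some `𝔽_(q ^ (m r))`, so it is an eigenvector of `φ ^ (m r)` for `q ^ (m r)`, and
then of `φ ^ m` for `q ^ m`, since `T ^ r - c ^ r` has only simple roots; by averaging it is a combination of classes of
divisors over `𝔽_(q ^ m)`.
-/

set_option autoImplicit false

universe u

namespace Pool.Agent.Results.MP_8ac872_ag.BranchCurvesByLevel

open Polynomial Pool.Agent.H914 Pool.Agent.TH125.Gal Pool.Agent.Y130 Pool.Agent.Y134.TF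
  Pool.Agent.Run7.h735.TP Pool.Agent.Run7.h735.CP Pool.Agent.Run7.h735.CF

/-- **The Tate conjecture for divisors, for cyclic coverings of the plane over finite fields, level by level.**  Let `S`
be (a resolution of) a cyclic covering of degree `p ^ s` of the plane over the finite field with `q` elements, with the
part `S.P` for the nontrivial characters, and `H` the quotient modulo `p` of the zeta function of the branch curve.  If
for all divisors `M` of `m` which are prime to `p` the cyclotomic polynomial `Φ_M` divides `H` at most `c M` times, then
the multiplicity of the eigenvalue `q ^ m` of `φ ^ m` on `S.P` is at most `(p ^ s - 1) ∑ φ(M) c(M)`; if the divisors over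
the field with `q ^ m` elements attain this number, and also if it is zero, then the statement of the problem holds for
`S` over this field (`TateForDivisors`).  If `H(1) ≠ 0` then it holds over the fields with `q ^ (p ^ a)` elements, for
all `a`. -/
theorem result {k : Type u} [Field k] {𝒱 : VarClass k} {ops : CycleOps 𝒱}
    (W : WeilCohomology.{u, 0} ops) [IsAlgClosed W.K] {Γ : Type} [Group Γ] (χ : Γ →* W.Kˣ)
    (S : PVar W Γ) (h : Cover χ S 1) {p s : ℕ} (hp : p.Prime) (hs : 1 ≤ s) (H : (ZMod p)[X])
    (v : CyclicPlace χ S.act S.P p s H) :
    (∀ m : ℕ, 0 < m → ∀ c : ℕ → ℕ, DividesAt p H c m →
      BoundAt χ S (v.φ ^ m) (levelBound p s c m)) ∧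
      (H.eval 1 ≠ 0 → ∀ a : ℕ, TateForDivisors χ S (v.φ ^ p ^ a)) :=
  ⟨fun _ hm c hc => main h hp hs v hm c hc, fun hH a => main_layers h hp hs v hH a⟩

end Pool.Agent.Results.MP_8ac872_ag.BranchCurvesByLevel
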