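import Pool.Agent.Run7.h902.CzDiv

/-!
# MP_8ac872_ag: the Tate conjecture for divisors is a question on two-dimensional moduli spaces of
configurations of points

Fix a prime number `p`. For a scheme `X` of finite type over `𝔽_p` of dimension at most `n` let `rk n X` be
the rank of `CH_(n - 1)(X)` minus the rank of `CH_(n - 1)(X, 1)` (for a smooth integral surface and `n = 2`
this is `rank Pic(X) - rank (O(X)^* / constants)`) and `ord n X = - ord_{s = n - 1} ζ(X, s)`. Tate's formula
`rk 2 X = ord 2 X` for a smooth projective surface is the assertion of the problem.

`FrameModuli 𝔽_p A`: `Spec A` is a moduli space over `𝔽_p` of configurations of points in the projective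
plane: the points `(1:0:0)`, `(0:1:0)`, `(0:0:1)`, `(1:1:1)` and finitely many points moving in given
Schubert cells `(1:x:y)`, `(0:1:y)`, `(0:0:1)`, such that every triple of points is prescribed to be
collinear or not collinear: the realization space of a matroid of rank `3` modulo `PGL_3`.

Theorem: the Tate conjecture for divisors for all smooth projective varieties over finite fields of
characteristic `p` is equivalent to Tate's formula for the smooth integral realization spaces over `𝔽_p` of
dimension `2`, and to Tate's formula for all schemes of finite type over `𝔽_p` of dimension at most `2`.

Proof. Both numbers are additive for `X = Z ∪ U`, and they are equal for curves, so the formula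
is a birational invariant of surfaces; and every integral scheme over `𝔽_p` has a dense open
subscheme which is ISOMORPHIC to a smooth realization space without further fixed points (an exact
form of the universality theorem of Mnev, proved in `CuRing`, `CuGad`, `CuMain`).
-/

set_option autoImplicit false

open CategoryTheory AlgebraicGeometry Pool.Agent.Y116.UV Pool.Agent.Run7.h902

namespace Pool.Agent.Results.MP_8ac872_ag.ConfigurationSurfaces

/-- **Theorem.** For every prime number `p` the following are equivalent:
(1) the Tate conjecture for divisors for all smooth projective varieties over finite fields of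
characteristic `p`;
(2) Tate's formula `rk 2 X = - ord_{s = 1} ζ(X, s)` for all schemes of finite type over `𝔽_p` of dimension at
most `2`;
(3) `rank Pic(X) - rank O(X)^* = - ord_{s = 1} ζ(X, s)` for the smooth integral moduli spaces `X` over `𝔽_p`
of dimension `2` of configurations of points in the plane containing the frame. -/
theorem result {p : ℕ} [Fact p.Prime] (F : Cz.Divisors p) :
    List.TFAE [
      ∀ Y : Sch (ZMod p), Cw.SmoothProjective Y → F.Q1 Y,
      ∀ X : Sch (ZMod p), FT True X → topologicalKrullDim X.left ≤ (2 : ℕ) → F.rk 2 X = F.ord 2 X,
      ∀ (A : Type) [CommRing A] [Algebra (ZMod p) A] [Algebra.FiniteType (ZMod p) A], IsDomain A →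
        Algebra.Smooth (ZMod p) A → Cx.FrameModuli (ZMod p) A → ringKrullDim A = (2 : ℕ) →
          F.rk 2 (aff (ZMod p) A) = F.ord 2 (aff (ZMod p) A)] :=
  Cz.tate_iff F

end Pool.Agent.Results.MP_8ac872_ag.ConfigurationSurfaces
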