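import Pool.Agent.Run7.h652.SG.Cnt
import Pool.Agent.Run7.h652.SG.Gen

/-!
# The Tate conjecture for divisors for the surfaces `m(x₀) (h(t) - x₀) y ^ 2 = (h(t) - x) m(x)`

Let `k` be a finite field of odd characteristic with `q` elements, `m` a monic irreducible polynomial over
`k` of odd degree `n = 2 g + 1 ≥ 3`, `h` in `k[t]` of degree `N ≥ 1` and `x₀` in `k`. The curve

  `D y ^ 2 = (h - x) m(x)`,  `D = m(x₀) (h - x₀)`,

over `K = k(t)` has genus `g`, the rational branch point `x = h` and the point `(x₀, 1)`; it is the pullback by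
`s = h(t)` of a rational surface over the line with coordinate `s` (for `n = 3` and squarefree `h - x₀` an
elliptic surface of geometric genus `N - 1`, not isotrivial). The function `X = D m(h) / (h - x)` has
its pole at the branch point, and in this coordinate the curve is `Y ^ 2 = F(X)` with `F` monic of degree
`n` with the zeros `D m(h) / (h - T)`, `m(T) = 0`. The algebra `K[X] / F` is the constant extension
`k_n(t)` of `K` of degree `n`.

**Theorem.** Let `m(h)` be irreducible, and let the irreducible factors of `h - x₀` of odd multiplicity have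
degree prime to `n`. Then, over all `k'(t)` with `k'` a finite extension of `k` of degree prime to `n N`, the
Jacobian `J` of the curve has no rational point of order two, `J / 2 J` is of order two and generated by the
class of `(x₀, 1)`, the rank of `J` is exactly one and the 2-primary part of its Tate-Shafarevich group is
zero.

The conditions hold

* for all `x₀`, if `n` is a prime number larger than `N` and `m(h)` is irreducible; and if `N` divides
  `q - 1`, this is true for every `h` of degree `N` and a proportion of at least about `1 / (2 N ^ N)` of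
  all irreducible polynomials `m` of prime degree `n`, as `n` tends to infinity;
* in towers, for all `x₀` and all `h = u t ^ (l ^ j) + c`, `j ≥ 0`, for all `m` and all odd primes `l`
  dividing `q - 1` and not `n`, `c` in `k` and all non-zero `u` for which `m(c) / u ^ n` is not an `l`-th
  power (such `u` exist).

For all other twists `D y ^ 2 = (h - x) m(x)`, `D` in `k[t]` not divisible by `m(h)` and with irreducible factors
of odd multiplicity of degree prime to `n`, the rank over all these `k'(t)` is at most one, and if `J` is not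
uniquely divisible by two then it is one and the 2-primary part of the Tate-Shafarevich group is zero: the
Tate conjecture holds if there is a point of infinite order.

Consequence (not formalised): by Artin, Tate, Milne, Kato and Trihan (`Sha` is the Brauer group of the
surface, and its `l`-primary part is finite for one prime `l`) the Tate conjecture for divisors is true for
smooth projective models of these surfaces over all the fields `k'`.

Proof. The classes of the 2-Selmer group (for the finite places) are represented by elements of `k_n(t)` with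
square norm. Their valuations are even at the places of good reduction, also of the twist, and at the places
over `A`, because these are inert in `k_n(t)` and the norm is a square. The place `m(h)` splits completely in
`k_n(t)`, into the `h - T`; all but one of the zeros of `F` meet there to first order, and the local condition
leaves two possibilities for the parities of the `n` valuations over `m(h)`. The class of `(x₀, 1)` realises the
one which is not trivial. So a class or its product with the class of `(x₀, 1)` has even valuations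
everywhere, i.e. it is a square times a constant, which is a square because its norm is one and `n` is odd.
The step from the Selmer group to `J` and `Sha` is the descent of helper905 (`Run7.h905.BS`), the count uses
the theorem of Chebotarev type of helper905 (`Run7.h905.CB.nc`).
-/

set_option autoImplicit false
set_option linter.all false

open Polynomial
open scoped Classical

namespace Pool.Agent.Results.MP_8ac872_ag.PullbackSurfaces

open Pool.Agent.Y713.Jac (J CoordRing)
open Pool.Agent.N352.Sha (ShaTrivial)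
open Run7.h905.Out (IsClass)

section defs

/-- The polynomial `F = X ^ n + ∑_{j < n} (- D) ^ (j + 1) m(h) ^ j m_(j+1)(h) X ^ (n - 1 - j)`, where `n` is
the degree of `m` and `m_j` is the `j`-th Hasse derivative, i.e. `m(h) F(X) = X ^ n m(h - D m(h) / X)`. -/
noncomputable def model {R : Type} [CommRing R] (m : R[X]) (h D : R) : R[X] :=
  X ^ m.natDegree + ∑ j ∈ Finset.range m.natDegree,
    C ((-D) ^ (j + 1) * m.eval h ^ j * (hasseDeriv (j + 1) m).eval h) * X ^ (m.natDegree - 1 - j)

/-- The map `(x, y) ↦ (X, Y)`, `X = D m(h) / (h - x)`, `Y = D ^ (g + 1) m(h) ^ g y / (h - x) ^ (g + 1)`. -/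
noncomputable def toModel {E : Type} [Field E] (m : E[X]) (g : ℕ) (h D : E) (p : E × E) : E × E :=
  (D * m.eval h / (h - p.1), D ^ (g + 1) * m.eval h ^ g * p.2 / (h - p.1) ^ (g + 1))

/-- The Jacobian `J` of `y ^ 2 = F(x)` over `K` has no `K`-rational point of order two, the group
`J(K) / 2 J(K)` has `2 ^ r` elements, and the rank of `J(K)` is `r` if `J(K)` is finitely generated. -/
structure RankIs {K : Type} [Field K] (F : K[X]) (r : ℕ) : Prop where
  torsion : ∀ P : J 2 F K, P ^ 2 = 1 → P = 1
  index : (powMonoidHom 2 : J 2 F K →* J 2 F K).range.index = 2 ^ r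
  rank : Group.FG (J 2 F K) → Module.finrank ℤ (Additive (J 2 F K)) = r

variable {k : Type} [Field k]

/-- The twist `D = m(x₀) (h - x₀)`. -/
noncomputable def twist (m h : k[X]) (x₀ : k) : k[X] := C (m.eval x₀) * (h - C x₀)

/-- `m` is monic and irreducible of odd degree `n ≥ 3`, `m(h)` is irreducible, and the irreducible factors of
`h - x₀` which do not have degree prime to `n` have even multiplicity: `h - x₀ = A B ^ 2` where the degrees
of the irreducible factors of `A` are prime to `n`. -/
structure Admissible (m h : k[X]) (x₀ : k) : Prop where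
  monic : m.Monic
  irreducible : Irreducible m
  odd : Odd m.natDegree
  big : 3 ≤ m.natDegree
  prime : Irreducible (m.comp h)
  factors : ∃ A B : k[X], h - C x₀ = A * B ^ 2 ∧
    ∀ π : k[X], Irreducible π → π ∣ A → π.natDegree.Coprime m.natDegree

/-- `m` is monic and irreducible of odd degree `n`, `m(h)` is irreducible and does not divide `D`, and
`D = A B ^ 2` where the degrees of the irreducible factors of `A` are prime to `n`. -/
structure AdmissibleTwist (m h D : k[X]) : Prop where
  monic : m.Monic
  irreducible : Irreducible m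
  odd : Odd m.natDegree
  prime : Irreducible (m.comp h)
  notDvd : ¬ m.comp h ∣ D
  factors : ∃ A B : k[X], D = A * B ^ 2 ∧
    ∀ π : k[X], Irreducible π → π ∣ A → π.natDegree.Coprime m.natDegree

variable (K : Type) [Field K] [Algebra k[X] K]

/-- The polynomial `F` over `K = k(t)` such that the curve `D y ^ 2 = (h - x) m(x)` is isomorphic to
`Y ^ 2 = F(X)` by `X = D m(h) / (h - x)`. -/
noncomputable def curveOf (m h D : k[X]) : K[X] :=
  model (m.map ((algebraMap k[X] K).comp C)) (algebraMap k[X] K h) (algebraMap k[X] K D)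

/-- The polynomial `F` for `D = m(x₀) (h - x₀)`. -/
noncomputable def curve (m h : k[X]) (x₀ : k) : K[X] := curveOf K m h (twist m h x₀)

/-- For the Jacobian `J` of the curve `D y ^ 2 = (h - x) m(x)` over `K = k(t)`: either `J(K)` is uniquely
divisible by two (so its rank is zero if it is finitely generated), or `J(K)` has no element of order two,
`J(K) / 2 J(K)` has two elements, the rank is one if `J(K)` is finitely generated, and the 2-primary part
of the Tate-Shafarevich group is zero (as in `Good`). -/
def ZeroOrOne [IsFractionRing k[X] K] (m h D : k[X]) : Prop :=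
  RankIs (curveOf K m h D) 0 ∨ RankIs (curveOf K m h D) 1 ∧ ShaTrivial 2 (curveOf K m h D) k[X]

/-- The coordinate `X = m(x₀) m(h)` of the point `(x₀, 1)`. -/
noncomputable def pointX (m h : k[X]) (x₀ : k) : K :=
  algebraMap k[X] K (C (m.eval x₀) * m.comp h)

/-- The coordinate `Y = m(x₀) ^ (g + 1) m(h) ^ g` of the point `(x₀, 1)`, where `m` has degree `2 g + 1`. -/
noncomputable def pointY (m h : k[X]) (x₀ : k) : K :=
  algebraMap k[X] K (C (m.eval x₀) ^ ((m.natDegree + 1) / 2) * m.comp h ^ ((m.natDegree - 1) / 2))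

/-- For the Jacobian `J` of the curve `m(x₀) (h - x₀) y ^ 2 = (h - x) m(x)` over `K = k(t)`: `J(K)` has no
element of order two, `J(K) / 2 J(K)` has two elements, the rank is one if `J(K)` is finitely generated,
the class of the point `(x₀, 1)` generates `J(K) / 2 J(K)`, and the 2-primary part of the Tate-Shafarevich
group is zero: every continuous cocycle of the absolute Galois group of `K` with values in `J(K^sep)`, the
class of which is of 2-power order and zero over the completions of `K` at all the places except possibly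
`t = ∞`, is a coboundary. -/
structure Good [IsFractionRing k[X] K] (m h : k[X]) (x₀ : k) : Prop where
  rank : RankIs (curve K m h x₀) 1
  point : ∃ P : J 2 (curve K m h x₀) K,
    IsClass (curve K m h x₀) (X - C (pointX K m h x₀)) (C (pointY K m h x₀)) P ∧ ∀ R, P ≠ R ^ 2
  sha : ShaTrivial 2 (curve K m h x₀) k[X]

end defs

section proof

open Run7.h652.SG

theorem curve_iff {E : Type} [Field E] {m : E[X]} {g : ℕ} {h D : E} (hn : m.natDegree = 2 * g + 1)
    (hs : m.eval h ≠ 0) (hD : D ≠ 0) {x : E} (hx : x ≠ h) (y : E) :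
    (model m h D).eval (D * m.eval h / (h - x)) =
      (D ^ (g + 1) * m.eval h ^ g * y / (h - x) ^ (g + 1)) ^ 2 ↔ D * y ^ 2 = (h - x) * m.eval x := by
  refine ⟨fun h1 => ?_, fun h1 => mdl_curve hn hs hD hx h1⟩
  have hsub : h - x ≠ 0 := sub_ne_zero.2 hx.symm
  have hne : D * m.eval h / (h - x) ≠ 0 := div_ne_zero (mul_ne_zero hD hs) hsub
  have h2 := mdl_eval (m := m) (h := h) (D := D) hne
  have h3 : h - D * m.eval h / (D * m.eval h / (h - x)) = x := by
    rw [div_div_cancel₀ (mul_ne_zero hD hs)]
    ring
  have h4 : (mdl m h D).eval (D * m.eval h / (h - x)) =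
      (D ^ (g + 1) * m.eval h ^ g * y / (h - x) ^ (g + 1)) ^ 2 := h1
  rw [h3, hn, h4] at h2
  generalize m.eval x = z at h2 ⊢
  generalize m.eval h = s at h2 hs
  generalize h - x = u at h2 hsub ⊢
  have hP : (D * s) ^ (2 * g + 1) ≠ 0 := pow_ne_zero _ (mul_ne_zero hD hs)
  have hu : u ^ (2 * g + 1) ≠ 0 := pow_ne_zero _ hsub
  have e1 : (u ^ (g + 1)) ^ 2 = u ^ (2 * g + 1) * u := by ring
  rw [div_pow, div_pow, e1, mul_div_assoc', div_mul_eq_mul_div, div_eq_div_iff
    (mul_ne_zero hu hsub) hu] at h2
  apply mul_left_cancel₀ hP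
  apply mul_left_cancel₀ hu
  linear_combination h2

theorem curve_bij {E : Type} [Field E] {m : E[X]} {g : ℕ} {h D : E} (hn : m.natDegree = 2 * g + 1)
    (hs : m.eval h ≠ 0) (hD : D ≠ 0) :
    Set.BijOn (toModel m g h D) {p | p.1 ≠ h ∧ D * p.2 ^ 2 = (h - p.1) * m.eval p.1}
      {p | p.1 ≠ 0 ∧ p.2 ^ 2 = (model m h D).eval p.1} := by
  have hDs : D * m.eval h ≠ 0 := mul_ne_zero hD hs
  have hc : D ^ (g + 1) * m.eval h ^ g ≠ 0 := mul_ne_zero (pow_ne_zero _ hD) (pow_ne_zero _ hs)
  refine ⟨?_, ?_, ?_⟩
  · rintro ⟨x, y⟩ ⟨hx, hxy⟩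
    exact ⟨div_ne_zero hDs (sub_ne_zero.2 hx.symm), ((curve_iff hn hs hD hx y).2 hxy).symm⟩
  · rintro ⟨x, y⟩ ⟨hx, _⟩ ⟨x', y'⟩ ⟨hx', _⟩ he
    have hu : h - x ≠ 0 := sub_ne_zero.2 (Ne.symm hx)
    have hu' : h - x' ≠ 0 := sub_ne_zero.2 (Ne.symm hx')
    have e1 : D * m.eval h / (h - x) = D * m.eval h / (h - x') := congrArg Prod.fst he
    have e2 : D ^ (g + 1) * m.eval h ^ g * y / (h - x) ^ (g + 1) =
        D ^ (g + 1) * m.eval h ^ g * y' / (h - x') ^ (g + 1) := congrArg Prod.snd he
    rw [div_eq_div_iff hu hu'] at e1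
    have e3 : h - x' = h - x := mul_left_cancel₀ hDs e1
    have e4 : x = x' := by linear_combination e3
    rw [e3, div_left_inj' (pow_ne_zero _ hu)] at e2
    rw [e4, mul_left_cancel₀ hc e2]
  · rintro ⟨a, b⟩ ⟨ha, hab⟩
    have ha' : a ≠ 0 := ha
    have hx : h - D * m.eval h / a ≠ h := by
      intro h0
      exact div_ne_zero hDs ha' (by linear_combination -h0)
    have e1 : h - (h - D * m.eval h / a) = D * m.eval h / a := by ring
    have e2 : toModel m g h D (h - D * m.eval h / a,
        b * (D * m.eval h / a) ^ (g + 1) / (D ^ (g + 1) * m.eval h ^ g)) = (a, b) := by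
      unfold toModel
      ext
      · show D * m.eval h / (h - (h - D * m.eval h / a)) = a
        rw [e1, div_div_cancel₀ hDs]
      · show D ^ (g + 1) * m.eval h ^ g * (b * (D * m.eval h / a) ^ (g + 1) /
            (D ^ (g + 1) * m.eval h ^ g)) / (h - (h - D * m.eval h / a)) ^ (g + 1) = b
        rw [e1, mul_div_cancel₀ _ hc, mul_div_cancel_right₀]
        exact pow_ne_zero _ (div_ne_zero hDs ha')
    refine ⟨(h - D * m.eval h / a,
      b * (D * m.eval h / a) ^ (g + 1) / (D ^ (g + 1) * m.eval h ^ g)), ⟨hx, ?_⟩, e2⟩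
    apply (curve_iff hn hs hD hx _).1
    have e3 : D * m.eval h / (h - (h - D * m.eval h / a)) = a := congrArg Prod.fst e2
    have e4 : D ^ (g + 1) * m.eval h ^ g * (b * (D * m.eval h / a) ^ (g + 1) /
            (D ^ (g + 1) * m.eval h ^ g)) / (h - (h - D * m.eval h / a)) ^ (g + 1) = b :=
      congrArg Prod.snd e2
    rw [e3, e4]
    exact (hab : b ^ 2 = _).symm

section rank

variable {K : Type} [Field K]

theorem rankIs_one {F : K[X]} {P : Additive (J 2 F K)} (ht : ∀ x : Additive (J 2 F K), 2 • x = 0 → x = 0)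
    (hg : ∀ x : Additive (J 2 F K), ∃ R, x = 2 • R ∨ x = P + 2 • R) (hn : ∀ R, P ≠ 2 • R) :
    RankIs F 1 := by
  refine ⟨?_, ?_, ?_⟩
  · intro Q hQ
    have := ht (Additive.ofMul Q) (by
      rw [← ofMul_pow, hQ]
      rfl)
    exact this
  · rw [pow_one, Subgroup.index_eq_two_iff_exists_notMem_and]
    refine ⟨Additive.toMul P, ?_, ?_⟩
    · rintro ⟨R, hR⟩
      apply hn (Additive.ofMul R)
      rw [← ofMul_pow]
      exact congrArg Additive.ofMul hR.symm
    · intro b
      obtain ⟨R, hR | hR⟩ := hg (Additive.ofMul b)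
      · right
        refine ⟨Additive.toMul R, ?_⟩
        exact (congrArg Additive.toMul hR).symm
      · left
        refine ⟨Additive.toMul (P + R), ?_⟩
        show Additive.toMul (P + R) ^ 2 = b * Additive.toMul P
        have h1 : Additive.ofMul b + P = 2 • (P + R) := by
          rw [hR, smul_add, two_nsmul, two_nsmul]
          abel
        exact (congrArg Additive.toMul h1).symm
  · intro hfg
    haveI := hfg
    exact rank_one ht hg hn (by
      have : AddGroup.FG (Additive (J 2 F K)) := inferInstance
      exact this)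

theorem rankIs_zero {F : K[X]} (ht : ∀ x : Additive (J 2 F K), 2 • x = 0 → x = 0)
    (hg : ∀ x : Additive (J 2 F K), ∃ R, x = 2 • R) : RankIs F 0 := by
  refine ⟨?_, ?_, ?_⟩
  · intro Q hQ
    have := ht (Additive.ofMul Q) (by
      rw [← ofMul_pow, hQ]
      rfl)
    exact this
  · rw [pow_zero, Subgroup.index_eq_one, eq_top_iff]
    rintro b -
    obtain ⟨R, hR⟩ := hg (Additive.ofMul b)
    exact ⟨Additive.toMul R, (congrArg Additive.toMul hR).symm⟩
  · intro hfg
    haveI := hfg
    haveI : AddGroup.FG (Additive (J 2 F K)) := inferInstance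
    apply Run7.h905.BS.rank_of ht
    rw [pow_zero, Nat.card_eq_one_iff_unique]
    refine ⟨⟨fun a b => ?_⟩, ⟨0⟩⟩
    obtain ⟨x, rfl⟩ := QuotientAddGroup.mk_surjective a
    obtain ⟨y, rfl⟩ := QuotientAddGroup.mk_surjective b
    rw [QuotientAddGroup.eq, Run7.h905.BS.mem_dbl]
    obtain ⟨R, hR⟩ := hg (-x + y)
    exact ⟨R, hR⟩

end rank

theorem curveOf_eq {k : Type} [Field k] (K : Type) [Field K] [Algebra k[X] K] {m : k[X]}
    (hm : m.Monic) (h D : k[X]) : curveOf K m h D = FF K m h D := by
  unfold FF
  rw [mdl_map _ (hm.map _), Polynomial.map_map]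
  rfl

theorem zeroOrOne {k : Type} [Field k] [Finite k] (K : Type) [Field K] [Algebra k[X] K]
    [IsFractionRing k[X] K] (h2 : (2 : k) ≠ 0) {m h D A B : k[X]} (Q : HypD m h D A B) :
    ZeroOrOne K m h D := by
  obtain ⟨h4, h5, h6⟩ := mainD K h2 Q
  unfold ZeroOrOne
  rw [curveOf_eq K Q.mon h D]
  by_cases hP : ∃ P : Additive (J 2 (FF K m h D) K), ∀ R, P ≠ 2 • R
  · obtain ⟨P, hP⟩ := hP
    refine Or.inr ⟨rankIs_one h4 (fun x => ?_) hP, h6 P hP⟩
    rcases h5 P x with ⟨R, hR⟩ | ⟨R, hR⟩ | ⟨R, hR⟩
    · exact absurd hR (hP R)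
    · exact ⟨R, Or.inl hR⟩
    · refine ⟨R - P, Or.inr ?_⟩
      rw [smul_sub, ← hR, two_nsmul]
      abel
  · push Not at hP
    exact Or.inl (rankIs_zero h4 hP)

theorem curve_eq {k : Type} [Field k] (K : Type) [Field K] [Algebra k[X] K] {m : k[X]} (hm : m.Monic)
    (h : k[X]) (x₀ : k) : curve K m h x₀ = FF K m h (DD m h x₀) := curveOf_eq K hm h _

theorem good {k : Type} [Field k] [Finite k] (K : Type) [Field K] [Algebra k[X] K]
    [IsFractionRing k[X] K] (h2 : (2 : k) ≠ 0) {m h A B : k[X]} {x₀ : k} (Q : Hyp m h A B x₀) :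
    Good K m h x₀ := by
  obtain ⟨P, h3, h4, h5, h6, h7⟩ := main K h2 Q
  have e := curve_eq K Q.mon h x₀
  have e1 : pointX K m h x₀ = xP K m h x₀ := rfl
  have e2 : pointY K m h x₀ = yP K m h x₀ := rfl
  refine ⟨?_, ?_, ?_⟩
  · rw [e]
    exact rankIs_one h4 h5 h6
  · rw [e, e1, e2]
    refine ⟨Additive.toMul P, h3, fun R hR => h6 (Additive.ofMul R) ?_⟩
    rw [← ofMul_pow, ← hR]
    rfl
  · rw [e]
    exact h7

theorem Admissible.hyp {k : Type} [Field k] {m h : k[X]} {x₀ : k} (H : Admissible m h x₀) :
    ∃ A B : k[X], Hyp m h A B x₀ := by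
  obtain ⟨A, B, h1, h2⟩ := H.factors
  exact ⟨A, B, H.monic, H.irreducible, H.odd, H.big, H.prime, h1, h2⟩

theorem Hyp.adm {k : Type} [Field k] {m h A B : k[X]} {x₀ : k} (H : Hyp m h A B x₀) :
    Admissible m h x₀ := ⟨H.mon, H.irr, H.odd, H.big, H.prime, A, B, H.eq, H.cop⟩

end proof

/-- (1) Over every field `E` and for `m` of degree `2 g + 1` with `m(h) ≠ 0`, `D ≠ 0`:
`X = D m(h) / (h - x)`, `Y = D ^ (g + 1) m(h) ^ g y / (h - x) ^ (g + 1)` is a bijection of the points `x ≠ h` of
the curve `D y ^ 2 = (h - x) m(x)` onto those with `X ≠ 0` of `Y ^ 2 = F(X)`, `F = model m h D`.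

(2) Let `k` be finite of odd characteristic and `(m, h, x₀)` admissible over `k`. For all finite extensions
`k'` of `k` of degree prime to `deg m · deg h` the curve `m(x₀) (h - x₀) y ^ 2 = (h - x) m(x)` over `k'(t)` is
`Good`: the rank of the Jacobian is one, its Tate-Shafarevich group has no 2-primary part, and the class
of `(x₀, 1)` generates `J / 2 J`.

(3) If `m` is monic irreducible of prime degree `≥ 3` larger than the degree of `h` and `m(h)` is irreducible,
then `(m, h, x₀)` is admissible for all `x₀`.

(4) For all `N ≥ 2` there is a constant `C` such that for all finite fields `k` with `q` elements, all `h` of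
degree `N ∣ q - 1` and all primes `r > N` with `q ^ r > C`, at least `(q ^ r / (2 N ^ N) - q) / r` polynomials
`m` of degree `r` are admissible with `h` and all `x₀` in `k`. (There are `(q ^ r - q) / r` monic irreducible
polynomials of degree `r`.)

(5) For all finite `k`, all monic irreducible `m` of odd degree `n ≥ 3`, all odd primes `l ∣ q - 1`, `l ∤ n`,
and all `c` in `k`: there are non-zero `u` in `k` for which `m(c) / u ^ n` is not an `l`-th power, and for all
these `u`, `h = u t ^ (l ^ j) + c` is admissible with `m` for all `j ≥ 0` and all `x₀`.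

(6) Let `k` be finite of odd characteristic, `m` monic irreducible of odd degree `n`, `m(h)` irreducible, and
`D` in `k[t]` not divisible by `m(h)` such that the irreducible factors of odd multiplicity of `D` have degree
prime to `n`. For all `k'` as in (2) and the Jacobian `J` of `D y ^ 2 = (h - x) m(x)` over `K = k'(t)`: `J(K)` is
uniquely divisible by two (rank zero), or `J(K)[2] = 0`, `J(K) / 2 J(K)` has two elements, the rank is one
and the Tate-Shafarevich group has no 2-primary part. -/
theorem result :
    (∀ (E : Type) [Field E] (m : E[X]) (g : ℕ) (h D : E), m.natDegree = 2 * g + 1 → m.eval h ≠ 0 →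
      D ≠ 0 → Set.BijOn (toModel m g h D) {p | p.1 ≠ h ∧ D * p.2 ^ 2 = (h - p.1) * m.eval p.1}
        {p | p.1 ≠ 0 ∧ p.2 ^ 2 = (model m h D).eval p.1}) ∧
    (∀ (k : Type) [Field k] [Finite k], (2 : k) ≠ 0 → ∀ (m h : k[X]) (x₀ : k), Admissible m h x₀ →
      ∀ (k' : Type) [Field k'] [Algebra k k'] [FiniteDimensional k k'],
      Nat.Coprime (m.natDegree * h.natDegree) (Module.finrank k k') →
      ∀ (K' : Type) [Field K'] [Algebra k'[X] K'] [IsFractionRing k'[X] K'],
        Good K' (m.map (algebraMap k k')) (h.map (algebraMap k k')) (algebraMap k k' x₀)) ∧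
    (∀ (k : Type) [Field k] (m h : k[X]), m.Monic → Irreducible m → m.natDegree.Prime →
      3 ≤ m.natDegree → h.natDegree < m.natDegree → Irreducible (m.comp h) →
      ∀ x₀ : k, Admissible m h x₀) ∧
    (∀ N : ℕ, 2 ≤ N → ∃ C : ℕ, ∀ (k : Type) [Field k] [Finite k] (h : k[X]), h.natDegree = N →
      N ∣ Nat.card k - 1 → ∀ r : ℕ, r.Prime → N < r → C < Nat.card k ^ r →
      Nat.card k ^ r ≤ 2 * N ^ N *
        (r * {m : k[X] | m.natDegree = r ∧ ∀ x₀ : k, Admissible m h x₀}.ncard + Nat.card k)) ∧
    (∀ (k : Type) [Field k] [Finite k] (m : k[X]), m.Monic → Irreducible m → Odd m.natDegree →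
      3 ≤ m.natDegree → ∀ l : ℕ, l.Prime → l ≠ 2 → l ∣ Nat.card k - 1 → ¬ l ∣ m.natDegree →
      ∀ c : k, (∃ u : k, u ≠ 0 ∧ ∀ b : k, b ^ l * u ^ m.natDegree ≠ m.eval c) ∧
        ∀ u : k, u ≠ 0 → (∀ b : k, b ^ l * u ^ m.natDegree ≠ m.eval c) →
        ∀ (j : ℕ) (x₀ : k), Admissible m (C u * X ^ l ^ j + C c) x₀) ∧
    ∀ (k : Type) [Field k] [Finite k], (2 : k) ≠ 0 → ∀ m h D : k[X], AdmissibleTwist m h D →
      ∀ (k' : Type) [Field k'] [Algebra k k'] [FiniteDimensional k k'],
      Nat.Coprime (m.natDegree * h.natDegree) (Module.finrank k k') →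
      ∀ (K' : Type) [Field K'] [Algebra k'[X] K'] [IsFractionRing k'[X] K'],
        ZeroOrOne K' (m.map (algebraMap k k')) (h.map (algebraMap k k')) (D.map (algebraMap k k')) := by
  refine ⟨?_, ?_, ?_, ?_, ?_, ?_⟩
  · intro E _ m g h D hn hs hD
    exact curve_bij hn hs hD
  · intro k _ _ h2 m h x₀ H k' _ _ _ hc K' _ _ _
    obtain ⟨A, B, Q⟩ := H.hyp
    haveI : Finite k' := Module.finite_of_finite k
    have h2' : (2 : k') ≠ 0 := by
      have := (_root_.map_ne_zero (algebraMap k k')).2 h2
      rwa [map_ofNat] at this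
    exact good K' h2' (Q.ext hc)
  · intro k _ m h hm hirr hp h3 hlt hh x₀
    exact Hyp.adm (Run7.h652.SG.Hyp.of_prime hm hirr hp h3 hlt hh x₀)
  · intro N hN
    obtain ⟨C0, hC0⟩ := Run7.h652.SG.count N (by omega)
    refine ⟨C0, fun k _ _ h hh hNq r hr hNr hC => ?_⟩
    refine (hC0 k h hh hNq r hr hC).trans (le_of_eq ?_)
    congr 4
    ext m
    constructor
    · rintro ⟨h1, h2, h3, h4⟩
      refine ⟨h3, fun x₀ => Hyp.adm (Run7.h652.SG.Hyp.of_prime h1 h2 (by rw [h3]; exact hr)
        (by omega) (by rw [h3, hh]; exact hNr) h4 x₀)⟩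
    · rintro ⟨h3, h4⟩
      have H := h4 0
      exact ⟨H.monic, H.irreducible, h3, H.prime⟩
  · intro k _ _ m hm hirr hodd h3 l hl hl2 hlq hln c
    refine ⟨Run7.h652.SG.exists_u hirr h3 hl hlq hln c, fun u hu hb j x₀ => ?_⟩
    exact Hyp.adm (Run7.h652.SG.Hyp.tower hm hirr hodd h3 hl hl2 hlq hln hu hb j x₀)
  · intro k _ _ h2 m h D H k' _ _ _ hc K' _ _ _
    obtain ⟨A, B, h3, h4⟩ := H.factors
    have Q : Run7.h652.SG.HypD m h D A B := ⟨H.monic, H.irreducible, H.odd, H.prime, H.notDvd, h3, h4⟩
    haveI : Finite k' := Module.finite_of_finite k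
    have h2' : (2 : k') ≠ 0 := by
      have := (_root_.map_ne_zero (algebraMap k k')).2 h2
      rwa [map_ofNat] at this
    exact zeroOrOne K' h2' (Q.ext hc)

end Pool.Agent.Results.MP_8ac872_ag.PullbackSurfaces
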